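import Pool.Agent.helper99.WN.SpecB

/-!
# MP_5c1f29_al, row wn:SB : there is a long arc of singly used edges
-/

set_option autoImplicit false

open Classical

namespace Pool.Agent.WN

theorem SB_deg {V : Type} {k : ℕ} (E : Gr V k) (B : Finset V) :
    (∑ v ∈ B, deg E v) =
      (E.filter fun e => e.1 ∈ B).card + (E.filter fun e => e.2.2 ∈ B).card := by
  unfold deg
  rw [Finset.sum_add_distrib]
  congr 1
  · rw [Finset.card_eq_sum_card_fiberwise (f := fun e => e.1) (t := B)
      (s := E.filter fun e => e.1 ∈ B)]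
    · apply Finset.sum_congr rfl
      intro v hv
      congr 1
      ext e
      simp only [Finset.mem_filter]
      constructor
      · rintro ⟨h1, h2⟩
        exact ⟨⟨h1, by rw [h2]; exact hv⟩, h2⟩
      · rintro ⟨⟨h1, _⟩, h2⟩
        exact ⟨h1, h2⟩
    · intro e he
      exact (Finset.mem_filter.1 he).2
  · rw [Finset.card_eq_sum_card_fiberwise (f := fun e => e.2.2) (t := B)
      (s := E.filter fun e => e.2.2 ∈ B)]
    · apply Finset.sum_congr rfl
      intro v hv
      congr 1
      ext e
      simp only [Finset.mem_filter]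
      constructor
      · rintro ⟨h1, h2⟩
        exact ⟨⟨h1, by rw [h2]; exact hv⟩, h2⟩
      · rintro ⟨⟨h1, _⟩, h2⟩
        exact ⟨h1, h2⟩
    · intro e he
      exact (Finset.mem_filter.1 he).2

/-- the valences at the vertices of `B` -/
theorem SB_sum {V : Type} [Fintype V] {k : ℕ} (E : Gr V k) (κ : ℕ) (a b : V)
    (hd : ∀ v, 2 ≤ deg E v) (hE : E.card + 1 ≤ Fintype.card V + κ) :
    (((E.filter fun e => e.1 ∈ Finset.univ.filter fun v => 3 ≤ deg E v ∨ v = a ∨ v = b).card +
      (E.filter fun e => e.2.2 ∈ Finset.univ.filter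
        fun v => 3 ≤ deg E v ∨ v = a ∨ v = b).card : ℕ) : ℤ) ≤ 6 * κ - 2 := by
  rw [← SB_deg]
  have h1 : (∑ v : V, (deg E v : ℤ)) = 2 * E.card := by
    have h2 := SB_deg E (Finset.univ : Finset V)
    have h3 : (E.filter fun e => e.1 ∈ (Finset.univ : Finset V)) = E := by
      apply Finset.filter_true_of_mem
      intro e _
      exact Finset.mem_univ _
    have h4 : (E.filter fun e => e.2.2 ∈ (Finset.univ : Finset V)) = E := by
      apply Finset.filter_true_of_mem
      intro e _
      exact Finset.mem_univ _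
    rw [h3, h4] at h2
    rw [← Nat.cast_sum, h2]
    push_cast
    ring
  set B : Finset V := Finset.univ.filter fun v => 3 ≤ deg E v ∨ v = a ∨ v = b with hB
  push_cast
  have h5 : (∑ v ∈ B, (deg E v : ℤ)) ≤ ∑ v : V, (3 * ((deg E v : ℤ) - 2) +
      ((if v = a then 2 else 0) + if v = b then 2 else 0)) := by
    rw [← Finset.sum_filter_add_sum_filter_not Finset.univ
      (fun v => 3 ≤ deg E v ∨ v = a ∨ v = b)]
    have h6 : (∑ v ∈ B, (deg E v : ℤ)) ≤ ∑ v ∈ B, (3 * ((deg E v : ℤ) - 2) +
      ((if v = a then 2 else 0) + if v = b then 2 else 0)) := by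
      apply Finset.sum_le_sum
      intro v hv
      have h7 := hd v
      rcases (Finset.mem_filter.1 hv).2 with h8 | h8 | h8
      · split_ifs <;> omega
      · rw [if_pos h8]
        split_ifs <;> omega
      · rw [if_pos h8]
        split_ifs <;> omega
    have h9 : (0 : ℤ) ≤ ∑ v ∈ Finset.univ.filter
        (fun v => ¬ (3 ≤ deg E v ∨ v = a ∨ v = b)), (3 * ((deg E v : ℤ) - 2) +
      ((if v = a then 2 else 0) + if v = b then 2 else 0)) := by
      apply Finset.sum_nonneg
      intro v _
      have h7 := hd v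
      split_ifs <;> omega
    linarith
  have h10 : (∑ v : V, (3 * ((deg E v : ℤ) - 2) +
      ((if v = a then 2 else 0) + if v = b then 2 else 0)))
      = 3 * (2 * E.card - 2 * Fintype.card V) + 4 := by
    rw [Finset.sum_add_distrib, Finset.sum_add_distrib, ← Finset.mul_sum,
      Finset.sum_sub_distrib, h1]
    simp
    ring
  rw [h10] at h5
  have h11 : (E.card : ℤ) + 1 ≤ Fintype.card V + κ := by exact_mod_cast hE
  linarith

theorem SB (hLA : LA_stmt) : SB_stmt := by
  intro V _ k E C W N s e z κ hW hI hd hE hrun hse hCE hP hns hlen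
  set B : Finset V := Finset.univ.filter fun v => 3 ≤ deg E v ∨ v = z s ∨ v = z e with hB
  have hsum := SB_sum E κ (z s) (z e) hd hE
  have hLA' := hLA V k E C W s e z hW.red hI hrun hCE hP
  have hnB : ∀ v, v ∉ B → deg E v = 2 ∧ v ≠ z s ∧ v ≠ z e := by
    intro v hv
    have h1 : ¬ (3 ≤ deg E v ∨ v = z s ∨ v = z e) := by
      intro h2
      exact hv (Finset.mem_filter.2 ⟨Finset.mem_univ _, h2⟩)
    push Not at h1
    have h2 := hd v
    exact ⟨by omega, h1.2.1, h1.2.2⟩
  by_contra hcon
  -- the single steps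
  set S : Finset ℤ := (Finset.Ico s e).filter fun t => Sg W s e z C t with hS
  have hSmem : ∀ t, t ∈ S ↔ Sg W s e z C t := by
    intro t
    rw [hS, Finset.mem_filter, Finset.mem_Ico]
    constructor
    · exact fun h => h.2
    · exact fun h => ⟨⟨h.1, h.2.1⟩, h⟩
  set St : Finset ℤ := S.filter fun t => ¬ (t - 1 ∈ S ∧ z t ∉ B) with hSt
  set En : Finset ℤ := S.filter fun t => ¬ (t + 1 ∈ S ∧ z (t + 1) ∉ B) with hEn
  clear_value En
  clear_value St
  clear_value S
  have hcards : St.card = En.card := by
    have h1 : (S.filter fun t => t - 1 ∈ S ∧ z t ∉ B).card =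
        (S.filter fun t => t + 1 ∈ S ∧ z (t + 1) ∉ B).card := by
      refine Finset.card_bij' (fun t _ => t - 1) (fun t _ => t + 1) ?_ ?_ ?_ ?_
      · intro t ht
        rw [Finset.mem_filter] at ht ⊢
        rw [sub_add_cancel]
        exact ⟨ht.2.1, ht.1, ht.2.2⟩
      · intro t ht
        rw [Finset.mem_filter] at ht ⊢
        rw [add_sub_cancel_right]
        exact ⟨ht.2.1, ht.1, ht.2.2⟩
      · intro t _
        ring
      · intro t _
        ring
    have h2 : (S.filter fun t => t - 1 ∈ S ∧ z t ∉ B).card + St.card = S.card := by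
      rw [hSt]
      exact Finset.card_filter_add_card_filter_not _
    have h3 : (S.filter fun t => t + 1 ∈ S ∧ z (t + 1) ∉ B).card + En.card = S.card := by
      rw [hEn]
      exact Finset.card_filter_add_card_filter_not _
    omega
  have hStS : ∀ t ∈ St, t ∈ S := by
    intro t ht
    rw [hSt, Finset.mem_filter] at ht
    exact ht.1
  have hEnS : ∀ t ∈ En, t ∈ S := by
    intro t ht
    rw [hEn, Finset.mem_filter] at ht
    exact ht.1
  have hStB : ∀ t ∈ St, z t ∈ B := by
    intro t ht
    rw [hSt, Finset.mem_filter] at ht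
    by_contra h1
    obtain ⟨h2, h3, h4⟩ := hnB _ h1
    exact ht.2 ⟨(hSmem _).2 ((hLA' t ((hSmem t).1 ht.1)).1 h2 h3 h4), h1⟩
  have hEnB : ∀ t ∈ En, z (t + 1) ∈ B := by
    intro t ht
    rw [hEn, Finset.mem_filter] at ht
    by_contra h1
    obtain ⟨h2, h3, h4⟩ := hnB _ h1
    exact ht.2 ⟨(hSmem _).2 ((hLA' t ((hSmem t).1 ht.1)).2 h2 h3 h4), h1⟩
  have hinj : ∀ t ∈ S, ∀ t' ∈ S, ed W z t = ed W z t' → t = t' := by
    intro t ht t' ht' h1
    have h2 := (hSmem t).1 ht
    have h3 := (hSmem t').1 ht'
    exact h3.2.2.1 t h2.1 h2.2.1 h1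
  have hedE : ∀ t ∈ S, ed W z t ∈ E := by
    intro t ht
    have h2 := (hSmem t).1 ht
    exact ed_mem (hrun t h2.1 h2.2.1)
  -- initial ends
  have hA : (St.filter fun t => (W t).2 = true).card + (En.filter fun t => ¬ (W t).2 = true).card ≤
      (E.filter fun e => e.1 ∈ B).card := by
    rw [← Finset.card_union_of_disjoint]
    · apply Finset.card_le_card_of_injOn (ed W z)
      · intro t ht
        rw [Finset.mem_coe, Finset.mem_union, Finset.mem_filter, Finset.mem_filter] at ht
        rw [Finset.mem_coe, Finset.mem_filter]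
        rcases ht with ⟨h1, h2⟩ | ⟨h1, h2⟩
        · refine ⟨hedE t (hStS _ h1), ?_⟩
          have h3 : (ed W z t).1 = z t := by rw [ed, if_pos h2]
          rw [h3]
          exact hStB t h1
        · refine ⟨hedE t (hEnS _ h1), ?_⟩
          have h3 : (ed W z t).1 = z (t + 1) := by rw [ed, if_neg h2]
          rw [h3]
          exact hEnB t h1
      · intro t ht t' ht' h1
        rw [Finset.mem_coe, Finset.mem_union, Finset.mem_filter, Finset.mem_filter] at ht ht'
        have h2 : t ∈ S := by
          rcases ht with ⟨h1, _⟩ | ⟨h1, _⟩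
          · exact hStS _ h1
          · exact hEnS _ h1
        have h3 : t' ∈ S := by
          rcases ht' with ⟨h1, _⟩ | ⟨h1, _⟩
          · exact hStS _ h1
          · exact hEnS _ h1
        exact hinj t h2 t' h3 h1
    · rw [Finset.disjoint_left]
      intro t ht ht'
      rw [Finset.mem_filter] at ht ht'
      exact ht'.2 ht.2
  have hA' : (St.filter fun t => ¬ (W t).2 = true).card +
      (En.filter fun t => (W t).2 = true).card ≤ (E.filter fun e => e.2.2 ∈ B).card := by
    rw [← Finset.card_union_of_disjoint]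
    · apply Finset.card_le_card_of_injOn (ed W z)
      · intro t ht
        rw [Finset.mem_coe, Finset.mem_union, Finset.mem_filter, Finset.mem_filter] at ht
        rw [Finset.mem_coe, Finset.mem_filter]
        rcases ht with ⟨h1, h2⟩ | ⟨h1, h2⟩
        · refine ⟨hedE t (hStS _ h1), ?_⟩
          have h3 : (ed W z t).2.2 = z t := by rw [ed, if_neg h2]
          rw [h3]
          exact hStB t h1
        · refine ⟨hedE t (hEnS _ h1), ?_⟩
          have h3 : (ed W z t).2.2 = z (t + 1) := by rw [ed, if_pos h2]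
          rw [h3]
          exact hEnB t h1
      · intro t ht t' ht' h1
        rw [Finset.mem_coe, Finset.mem_union, Finset.mem_filter, Finset.mem_filter] at ht ht'
        have h2 : t ∈ S := by
          rcases ht with ⟨h1, _⟩ | ⟨h1, _⟩
          · exact hStS _ h1
          · exact hEnS _ h1
        have h3 : t' ∈ S := by
          rcases ht' with ⟨h1, _⟩ | ⟨h1, _⟩
          · exact hStS _ h1
          · exact hEnS _ h1
        exact hinj t h2 t' h3 h1
    · rw [Finset.disjoint_left]
      intro t ht ht'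
      rw [Finset.mem_filter] at ht ht'
      exact ht.2 ht'.2
  have hStc : (2 : ℤ) * St.card ≤ 6 * κ - 2 := by
    have h1 := Finset.card_filter_add_card_filter_not (s := St) (fun t => (W t).2 = true)
    have h2 := Finset.card_filter_add_card_filter_not (s := En) (fun t => (W t).2 = true)
    have h3 : 2 * St.card ≤ (E.filter fun e => e.1 ∈ B).card +
        (E.filter fun e => e.2.2 ∈ B).card := by omega
    have h4 : ((2 * St.card : ℕ) : ℤ) ≤ (((E.filter fun e => e.1 ∈ B).card +
        (E.filter fun e => e.2.2 ∈ B).card : ℕ) : ℤ) := by exact_mod_cast h3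
    have h5 := le_trans h4 hsum
    push_cast at h5
    exact h5
  -- every single step is near a start
  have hnear : ∀ t ∈ S, ∃ p ∈ St, p ≤ t ∧ t < p + 3 * N := by
    intro t ht
    by_contra h1
    push Not at h1
    apply hcon
    have h2 : ∀ j : ℕ, j ≤ 3 * N → t - j ∈ S ∧ ∀ i : ℕ, i < j → z (t - i) ∉ B := by
      intro j
      induction j with
      | zero =>
        intro _
        refine ⟨by rw [Nat.cast_zero, sub_zero]; exact ht, ?_⟩
        intro i hi
        omega
      | succ j ih =>
        intro hj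
        obtain ⟨h3, h4⟩ := ih (by omega)
        have h5 : t - (j : ℤ) ∉ St := by
          intro h6
          have h7 := h1 _ h6 (by omega)
          omega
        have h6 : t - (j : ℤ) - 1 ∈ S ∧ z (t - j) ∉ B := by
          by_contra h7
          exact h5 (by rw [hSt, Finset.mem_filter]; exact ⟨h3, h7⟩)
        refine ⟨?_, ?_⟩
        · have h7 : t - ((j + 1 : ℕ) : ℤ) = t - j - 1 := by push_cast; ring
          rw [h7]
          exact h6.1
        · intro i hi
          rcases Nat.lt_succ_iff_lt_or_eq.1 hi with h8 | h8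
          · exact h4 i h8
          · rw [h8]
            exact h6.2
    have h3 : ∀ t', t - 3 * N ≤ t' → t' ≤ t → t' ∈ S := by
      intro t' h4 h5
      have h6 := (h2 (t - t').toNat (by omega)).1
      have h7 : t - (((t - t').toNat : ℕ) : ℤ) = t' := by omega
      rwa [h7] at h6
    refine ⟨t - 3 * N, ?_, ?_, ?_, ?_⟩
    · exact ((hSmem _).1 (h3 (t - 3 * N) le_rfl (by omega))).1
    · have h4 := ((hSmem _).1 ht).2.1
      linarith
    · intro t' h4 h5
      exact (hSmem _).1 (h3 t' h4 (by linarith))
    · intro t' h4 h5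
      apply hnB
      have h6 := (h2 (3 * N) le_rfl).2 (t - t').toNat (by omega)
      have h7 : t - (((t - t').toNat : ℕ) : ℤ) = t' := by omega
      rwa [h7] at h6
  have hSle : S.card ≤ St.card * (3 * N) := by
    have h1 : S ⊆ St.biUnion fun p => Finset.Ico p (p + 3 * N) := by
      intro t ht
      obtain ⟨p, hp, h2, h3⟩ := hnear t ht
      exact Finset.mem_biUnion.2 ⟨p, hp, Finset.mem_Ico.2 ⟨h2, h3⟩⟩
    refine (Finset.card_le_card h1).trans ?_
    apply Finset.card_biUnion_le_card_mul
    intro p _
    rw [Int.card_Ico]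
    omega
  -- the number of single steps
  have hSge : (e - s).toNat ≤ S.card + 2 * κ * N + C.card := by
    set F : Finset ℤ := (Finset.Ico s e).filter fun t => ∃ t' ∈ Finset.Ico s e,
      t' ≠ t ∧ ed W z t' = ed W z t with hF
    set T : Finset ℤ := (Finset.Ico s e).filter fun t =>
      (∀ t', s ≤ t' → t' < e → ed W z t' = ed W z t → t' = t) ∧ ed W z t ∈ C with hT
    have h1 : Finset.Ico s e ⊆ S ∪ F ∪ T := by
      intro t ht
      rw [Finset.mem_union, Finset.mem_union]
      by_cases h2 : ∀ t', s ≤ t' → t' < e → ed W z t' = ed W z t → t' = t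
      · by_cases h3 : ed W z t ∈ C
        · exact Or.inr (Finset.mem_filter.2 ⟨ht, h2, h3⟩)
        · rw [Finset.mem_Ico] at ht
          exact Or.inl (Or.inl ((hSmem t).2 ⟨ht.1, ht.2, h2, h3⟩))
      · push Not at h2
        obtain ⟨t', h3, h4, h5, h6⟩ := h2
        exact Or.inl (Or.inr (Finset.mem_filter.2 ⟨ht, t', Finset.mem_Ico.2 ⟨h3, h4⟩, h6, h5⟩))
    have h2 : T.card ≤ C.card := by
      apply Finset.card_le_card_of_injOn (ed W z)
      · intro t ht
        rw [Finset.mem_coe, hT, Finset.mem_filter] at ht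
        exact ht.2.2
      · intro t ht t' ht' h3
        rw [Finset.mem_coe, hT, Finset.mem_filter, Finset.mem_Ico] at ht ht'
        exact ht'.2.1 t ht.1.1 ht.1.2 h3
    have h3 := Finset.card_le_card h1
    rw [Int.card_Ico] at h3
    have h4 := Finset.card_union_le (S ∪ F) T
    have h5 := Finset.card_union_le S F
    omega
  have h1 : ((e - s).toNat : ℤ) = e - s := by omega
  have h2 : (((e - s).toNat : ℕ) : ℤ) ≤ ((S.card + 2 * κ * N + C.card : ℕ) : ℤ) := by
    exact_mod_cast hSge
  rw [h1] at h2
  have h3 : ((S.card : ℕ) : ℤ) ≤ ((St.card * (3 * N) : ℕ) : ℤ) := by exact_mod_cast hSle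
  push_cast at h2 h3
  have h4 : (St.card : ℤ) * (3 * N) ≤ (3 * κ - 1) * (3 * N) := by
    apply mul_le_mul_of_nonneg_right
    · linarith
    · positivity
  nlinarith

end Pool.Agent.WN
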